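import Mathlib
import Pool.Agent.R127.SatSearch

/-!
A poset with eight points which excludes the six-element poset `P₆` as an induced subposet and is
not `d`-decomposable.
-/

namespace Pool.Agent.Results.MP_28dfab_co.EightPoints

open Pool.Agent.R127.SatSearch

/-- `S` is a `k`-antichain: a union of `k` pairwise disjoint antichains. -/
def IsKAntichain {P : Type} [PartialOrder P] (k : ℕ) (S : Set P) : Prop :=
  ∃ A : Fin k → Set P, (∀ i, IsAntichain (· ≤ ·) (A i)) ∧ (∀ i j, i ≠ j → Disjoint (A i) (A j)) ∧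
    S = ⋃ i, A i

/-- `d_k(P)`: the largest size of a `k`-antichain of the finite poset `P`. -/
noncomputable def d (P : Type) [PartialOrder P] (k : ℕ) : ℕ :=
  sSup {n | ∃ S : Set P, IsKAntichain k S ∧ S.ncard = n}

/-- The height `h(P)`: the largest size of a chain in the finite poset `P`. -/
noncomputable def height (P : Type) [PartialOrder P] : ℕ :=
  sSup {n | ∃ C : Set P, IsChain (· ≤ ·) C ∧ C.ncard = n}

/-- `P` is `d`-decomposable: it has a partition into antichains `A_1, ..., A_h`, where `h` is the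
height of `P`, such that `|A_1 ∪ ... ∪ A_k| = d_k(P)` for all `k = 1, ..., h`. -/
def DDecomposable (P : Type) [PartialOrder P] : Prop :=
  ∃ A : Fin (height P) → Set P, (∀ i, IsAntichain (· ≤ ·) (A i)) ∧
    (∀ i j, i ≠ j → Disjoint (A i) (A j)) ∧ (⋃ i, A i) = Set.univ ∧
    ∀ k : ℕ, 1 ≤ k → k ≤ height P → (⋃ i : {i : Fin (height P) // (i : ℕ) < k}, A i).ncard = d P k

/-- the order relation of `P₆`, where `0, 1, 2` stand for `x₁, x₂, x₃` and `3, 4, 5` for
`y₁, y₂, y₃` -/
def rel6 (i j : ℕ) : Bool :=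
  i == j || (Nat.ble i 2 && j == 4) || (i == 1 && (j == 3 || j == 4 || j == 5))

/-- The poset `P₆` on `{x₁, x₂, x₃, y₁, y₂, y₃}` (the points `0, 1, 2, 3, 4, 5` in this order) whose
strict comparabilities are exactly `x_i < y₂` and `x₂ < y_i` for `i = 1, 2, 3`. -/
structure P6 : Type where
  /-- the point -/
  val : Fin 6

/-- the order of `P₆` -/
instance P6.instPartialOrder : PartialOrder P6 where
  le a b := rel6 a.val b.val = true
  le_refl a := by
    obtain ⟨a⟩ := a
    revert a
    decide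
  le_trans a b c := by
    obtain ⟨a⟩ := a
    obtain ⟨b⟩ := b
    obtain ⟨c⟩ := c
    revert a b c
    decide
  le_antisymm a b h1 h2 := by
    obtain ⟨a⟩ := a
    obtain ⟨b⟩ := b
    congr 1
    revert a b
    decide

/-- the points of `P₆` -/
def P6.equiv : Fin 6 ≃ P6 := ⟨P6.mk, P6.val, fun _ => rfl, fun _ => rfl⟩

/-- the model of `P₆` -/
def P6.model : Model P6 6 rel6 := ⟨P6.equiv, fun _ _ => Iff.rfl⟩

/-- the order relation of the counterexample -/
def rel8 (i j : ℕ) : Bool :=
  i == j || (i == 0 && (j == 4 || j == 5 || j == 6)) || (i == 1 && (j == 6 || j == 7)) ||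
    (i == 2 && j == 7) || (i == 3 && j == 7)

/-- The counterexample: the points `0, ..., 7` with `0 < 4, 5, 6`, `1 < 6, 7`, `2 < 7`, `3 < 7`. -/
structure Q8 : Type where
  /-- the point -/
  val : Fin 8

/-- the order of the counterexample -/
instance Q8.instPartialOrder : PartialOrder Q8 where
  le a b := rel8 a.val b.val = true
  le_refl a := by
    obtain ⟨a⟩ := a
    revert a
    decide
  le_trans a b c := by
    obtain ⟨a⟩ := a
    obtain ⟨b⟩ := b
    obtain ⟨c⟩ := c
    revert a b c
    decide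
  le_antisymm a b h1 h2 := by
    obtain ⟨a⟩ := a
    obtain ⟨b⟩ := b
    congr 1
    revert a b
    decide

/-- the points of the counterexample -/
def Q8.equiv : Fin 8 ≃ Q8 := ⟨Q8.mk, Q8.val, fun _ => rfl, fun _ => rfl⟩

/-- the model of the counterexample -/
def Q8.model : Model Q8 8 rel8 := ⟨Q8.equiv, fun _ _ => Iff.rfl⟩

instance : Finite Q8 := Finite.of_equiv _ Q8.equiv

theorem excludes : ¬ Nonempty (P6 ↪o Q8) := by
  rintro ⟨φ⟩
  exact not_hasCopy Q8.model P6.model Set.univ (List.range 8)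
    (fun g _ => List.mem_range.mpr (Q8.model.num_lt g)) (by decide +kernel) ⟨φ, fun _ => trivial⟩

theorem le_iff (a b : Fin 8) : (⟨a⟩ : Q8) ≤ ⟨b⟩ ↔ rel8 a b = true := Iff.rfl

theorem height_eq : height Q8 = 2 := by
  apply IsGreatest.csSup_eq
  constructor
  · refine ⟨{⟨0⟩, ⟨4⟩}, ?_, ?_⟩
    · rw [IsChain, Set.pairwise_pair]
      intro _
      exact ⟨Or.inl (show rel8 0 4 = true by decide), Or.inr (show rel8 0 4 = true by decide)⟩
    · apply Set.ncard_pair
      intro h
      injection h with h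
      revert h
      decide
  · rintro n ⟨C, hC, rfl⟩
    by_contra hc
    rw [not_le, Set.two_lt_ncard_iff (Set.toFinite C)] at hc
    obtain ⟨⟨a⟩, ⟨b⟩, ⟨c⟩, ha, hb, hcc, hab, hac, hbc⟩ := hc
    have h1 := hC ha hb hab
    have h2 := hC ha hcc hac
    have h3 := hC hb hcc hbc
    have e1 : a ≠ b := fun h => hab (congrArg Q8.mk h)
    have e2 : a ≠ c := fun h => hac (congrArg Q8.mk h)
    have e3 : b ≠ c := fun h => hbc (congrArg Q8.mk h)
    simp only [le_iff] at h1 h2 h3
    clear hab hac hbc ha hb hcc hC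
    revert a b c
    decide +kernel

theorem d_one : 5 ≤ d Q8 1 := by
  apply le_csSup
  · refine ⟨Nat.card Q8, ?_⟩
    rintro n ⟨S, -, rfl⟩
    rw [← Set.ncard_univ]
    exact Set.ncard_le_ncard (Set.subset_univ S)
  · refine ⟨(fun i : Fin 5 => (⟨![1, 2, 3, 4, 5] i⟩ : Q8)) '' Set.univ,
      ⟨fun _ => (fun i : Fin 5 => (⟨![1, 2, 3, 4, 5] i⟩ : Q8)) '' Set.univ, ?_, ?_, ?_⟩, ?_⟩
    · rintro - _ ⟨a, -, rfl⟩ _ ⟨b, -, rfl⟩ hab h
      have hab' : a ≠ b := fun he => hab (by rw [he])
      have h' : rel8 (![1, 2, 3, 4, 5] a : Fin 8) (![1, 2, 3, 4, 5] b : Fin 8) = true := h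
      clear hab h
      revert a b
      decide +kernel
    · intro i j hij
      exact absurd (Subsingleton.elim i j) hij
    · rw [Set.iUnion_const]
    · rw [Set.ncard_image_of_injective _ ?_, Set.ncard_univ, Nat.card_fin]
      intro a b hab
      injection hab with hab
      revert a b
      decide +kernel

/-- There is a finite poset with eight points which excludes `P₆` as an induced subposet and is not
`d`-decomposable. -/
theorem result : ∃ (Q : Type) (_ : PartialOrder Q) (_ : Finite Q),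
    Nat.card Q = 8 ∧ ¬ Nonempty (P6 ↪o Q) ∧ ¬ DDecomposable Q := by
  refine ⟨Q8, inferInstance, inferInstance, ?_, excludes, ?_⟩
  · rw [← Nat.card_congr Q8.equiv, Nat.card_fin]
  rintro ⟨A, hA, hdis, hU, hd⟩
  have hh := height_eq
  have hd1 := hd 1 le_rfl (by omega)
  have h5 := d_one
  rw [← hd1] at h5
  -- the two antichains
  have hpos : 0 < height Q8 := by omega
  have hone : 1 < height Q8 := by omega
  have hun : (⋃ i : {i : Fin (height Q8) // (i : ℕ) < 1}, A i) = A ⟨0, hpos⟩ := by
    ext x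
    simp only [Set.mem_iUnion]
    constructor
    · rintro ⟨⟨⟨i, hi⟩, h⟩, hx⟩
      have : i = 0 := by simpa using h
      subst this
      exact hx
    · intro hx
      exact ⟨⟨⟨0, hpos⟩, by simp⟩, hx⟩
  rw [hun] at h5
  have hcov : ∀ x : Q8, x ∉ A ⟨0, hpos⟩ → x ∈ A ⟨1, hone⟩ := by
    intro x hx
    have : x ∈ ⋃ i, A i := by rw [hU]; trivial
    obtain ⟨⟨i, hi⟩, hxi⟩ := Set.mem_iUnion.mp this
    have hi2 : i < 2 := by omega
    interval_cases i
    · exact absurd hxi hx
    · exact hxi
  classical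
  let c : Fin 8 → Bool := fun a => decide ((⟨a⟩ : Q8) ∈ A ⟨0, hpos⟩)
  have hc : ∀ a b : Fin 8, a ≠ b → rel8 a b = true → c a ≠ c b := by
    intro a b hab hr he
    have hab' : (⟨a⟩ : Q8) ≠ ⟨b⟩ := fun h => hab (by injection h)
    by_cases ha : (⟨a⟩ : Q8) ∈ A ⟨0, hpos⟩
    · have hb : (⟨b⟩ : Q8) ∈ A ⟨0, hpos⟩ := by
        have : c b = true := by rw [← he]; simp [c, ha]
        simpa [c] using this
      exact hA _ ha hb hab' hr
    · have hb : (⟨b⟩ : Q8) ∉ A ⟨0, hpos⟩ := by
        have : c b = false := by rw [← he]; simp [c, ha]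
        simpa [c] using this
      exact hA _ (hcov _ ha) (hcov _ hb) hab' hr
  have key : ∀ c : Fin 8 → Bool, (∀ a b : Fin 8, a ≠ b → rel8 a b = true → c a ≠ c b) →
      (Finset.univ.filter fun a => c a = true).card ≤ 4 := by
    decide +kernel
  have h4 := key c hc
  have himg : A ⟨0, hpos⟩ = Q8.mk '' ((Finset.univ.filter fun a => c a = true : Finset (Fin 8)) : Set (Fin 8)) := by
    ext ⟨x⟩
    simp only [Set.mem_image, Finset.coe_filter, Finset.mem_univ, true_and, Set.mem_ofPred_eq]
    constructor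
    · intro hx
      exact ⟨x, by simp [c, hx], rfl⟩
    · rintro ⟨y, hy, hyx⟩
      injection hyx with hyx
      subst hyx
      simpa [c] using hy
  rw [himg, Set.ncard_image_of_injective _ (fun a b h => by injection h), Set.ncard_coe_finset] at h5
  omega

end Pool.Agent.Results.MP_28dfab_co.EightPoints
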